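import Pool.Agent.H29.TC.Targets

/-!
Module FP2: the transfer for a product of two finite rings.
-/

set_option autoImplicit false

open Finset Complex

namespace Pool.Agent.H42.THC

open Pool.Agent.H29.TC

/-- Parseval on a finite ring with a generating character. -/
theorem parseval {A : Type} [CommRing A] [Fintype A] (θ : A → ℂ) (hθ : AC θ)
    (hnd : ∀ w : A, (∀ r : A, θ (r * w) = 1) → w = 0) (g : A → ℂ) :
    ∑ a : A, ‖∑ y : A, θ (a * y) * g y‖ ^ 2 = (Fintype.card A : ℝ) * ∑ y : A, ‖g y‖ ^ 2 := by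
  classical
  have hsq : ∀ z : ℂ, ((‖z‖ ^ 2 : ℝ) : ℂ) = z * (starRingEnd ℂ) z := by
    intro z
    rw [Complex.mul_conj, Complex.normSq_eq_norm_sq]
  have hneg : ∀ x, (starRingEnd ℂ) (θ x) = θ (-x) := by
    intro x
    have e1 : θ x * θ (-x) = 1 := by rw [← hθ.add, add_neg_cancel, hθ.zero]
    have e2 : θ x * (starRingEnd ℂ) (θ x) = 1 := by
      rw [Complex.mul_conj, Complex.normSq_eq_norm_sq, hθ.norm]; norm_num
    exact mul_left_cancel₀ (hθ.ne x) (e2.trans e1.symm)
  have horth : ∀ w : A, ∑ a : A, θ (a * w) = if w = 0 then (Fintype.card A : ℂ) else 0 := by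
    intro w
    split_ifs with hw
    · subst hw
      simp [hθ.zero]
    · apply hom_sum (fun a : A => θ (a * w))
      · intro x y; rw [add_mul, hθ.add]
      · by_contra hcon
        push Not at hcon
        exact hw (hnd w hcon)
  apply Complex.ofReal_injective
  push_cast
  have e1 : ∀ a : A, ((‖∑ y : A, θ (a * y) * g y‖ : ℝ) : ℂ) ^ 2 =
      ∑ x : A, ∑ y : A, (g x * (starRingEnd ℂ) (g y)) * θ (a * (x - y)) := by
    intro a
    have := hsq (∑ y : A, θ (a * y) * g y)
    push_cast at this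
    rw [this, map_sum, Finset.sum_mul_sum]
    refine Finset.sum_congr rfl fun x _ => Finset.sum_congr rfl fun y _ => ?_
    rw [map_mul, hneg, mul_sub, sub_eq_add_neg, hθ.add]
    ring
  have e2 : ∀ x : A, ((‖g x‖ : ℝ) : ℂ) ^ 2 = g x * (starRingEnd ℂ) (g x) := by
    intro x
    have := hsq (g x)
    push_cast at this
    exact this
  rw [Finset.sum_congr rfl fun a _ => e1 a, Finset.sum_comm, Finset.mul_sum]
  refine Finset.sum_congr rfl fun x _ => ?_
  rw [Finset.sum_comm, e2]
  have e3 : ∀ y : A, ∑ a : A, (g x * (starRingEnd ℂ) (g y)) * θ (a * (x - y)) =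
      if y = x then (Fintype.card A : ℂ) * (g x * (starRingEnd ℂ) (g x)) else 0 := by
    intro y
    rw [← Finset.mul_sum, horth]
    by_cases h : y = x
    · subst h; simp; ring
    · rw [if_neg (fun h' => h (sub_eq_zero.1 h').symm), if_neg h, mul_zero]
  rw [Finset.sum_congr rfl fun y _ => e3 y, Finset.sum_ite_eq' Finset.univ x]
  simp

theorem pf_FP2 (hFG : T_FG) : T_FP2 := by
  classical
  intro A B _ _ _ _ G c η θ hc hη hθ h1 h2 h3 X Y hX hY b
  have hA : AC (fun x : A => θ (x, 0)) := by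
    constructor
    · intro x y
      have := hθ.add (x, 0) (y, 0)
      simpa using this
    · intro x; exact hθ.norm _
  have hB : AC (fun y : B => θ (0, y)) := by
    constructor
    · intro x y
      have := hθ.add (0, x) (0, y)
      simpa using this
    · intro x; exact hθ.norm _
  have hndA : ∀ w : A, (∀ r : A, θ (r * w, 0) = 1) → w = 0 := by
    intro w hw
    have := h2 (w, 0) (by
      rintro ⟨r, s⟩
      have := hw r
      simpa using this)
    exact congrArg Prod.fst this
  have hndB : ∀ w : B, (∀ r : B, θ (0, r * w) = 1) → w = 0 := by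
    intro w hw
    have := h2 (0, w) (by
      rintro ⟨r, s⟩
      have := hw s
      simpa using this)
    exact congrArg Prod.snd this
  have hsplit : ∀ (a : A) (a' : B) (y1 : A) (y2 : B),
      θ ((a, a') * (y1, y2)) = θ (a * y1, 0) * θ (0, a' * y2) := by
    intro a a' y1 y2
    rw [← hθ.add]
    simp
  set H : B → A → ℂ := fun r y1 =>
    ∑ y2 : B, (∑ a' : B, (if a' - r ∈ G then η a' * θ (0, a' * y2) else 0)) * b (y1, y2)
    with hH
  have key : ∀ (a : A) (r : B), ∑ y : A × B, (∑ a' : B, (if a' - r ∈ G then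
      c a * η a' * θ ((a, a') * y) else 0)) * b y = c a * ∑ y1 : A, θ (a * y1, 0) * H r y1 := by
    intro a r
    rw [Fintype.sum_prod_type, Finset.mul_sum]
    refine Finset.sum_congr rfl fun y1 _ => ?_
    rw [hH]
    simp only [Finset.mul_sum]
    refine Finset.sum_congr rfl fun y2 _ => ?_
    have : ∑ a' : B, (if a' - r ∈ G then c a * η a' * θ ((a, a') * (y1, y2)) else 0) =
        c a * θ (a * y1, 0) * ∑ a' : B, (if a' - r ∈ G then η a' * θ (0, a' * y2) else 0) := by
      rw [Finset.mul_sum]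
      refine Finset.sum_congr rfl fun a' _ => ?_
      split_ifs
      · rw [hsplit]; ring
      · simp
    rw [this]
    ring
  calc ∑ a : A, ∑ r ∈ X, ‖∑ y : A × B, (∑ a' : B, (if a' - r ∈ G then
      c a * η a' * θ ((a, a') * y) else 0)) * b y‖ ^ 2
      = ∑ a : A, ∑ r ∈ X, ‖c a * ∑ y1 : A, θ (a * y1, 0) * H r y1‖ ^ 2 := by
        refine Finset.sum_congr rfl fun a _ => Finset.sum_congr rfl fun r _ => ?_
        rw [key]
    _ ≤ ∑ a : A, ∑ r ∈ X, ‖∑ y1 : A, θ (a * y1, 0) * H r y1‖ ^ 2 := by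
        refine Finset.sum_le_sum fun a _ => Finset.sum_le_sum fun r _ => ?_
        rw [norm_mul]
        have := mul_le_of_le_one_left (norm_nonneg (∑ y1 : A, θ (a * y1, 0) * H r y1)) (hc a)
        exact pow_le_pow_left₀ (by positivity) this 2
    _ = ∑ r ∈ X, (Fintype.card A : ℝ) * ∑ y1 : A, ‖H r y1‖ ^ 2 := by
        rw [Finset.sum_comm]
        refine Finset.sum_congr rfl fun r _ => ?_
        exact parseval (fun x : A => θ (x, 0)) hA hndA (H r)
    _ = (Fintype.card A : ℝ) * ∑ y1 : A, ∑ r ∈ X, ‖H r y1‖ ^ 2 := by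
        rw [← Finset.mul_sum, Finset.sum_comm]
    _ = (Fintype.card A : ℝ) * ∑ y1 : A, ((Fintype.card B : ℝ) * ∑ r ∈ Y,
        ‖∑ y : B, (if y - r ∈ G then (starRingEnd ℂ) (η y) * b (y1, y) else 0)‖ ^ 2) := by
        congr 1
        refine Finset.sum_congr rfl fun y1 _ => ?_
        exact (hFG B G η (fun y : B => θ (0, y)) hη hB h1 hndB h3 X Y hX hY).2
          (fun y => b (y1, y))
    _ = (Fintype.card (A × B) : ℝ) * ∑ a : A, ∑ r ∈ Y,
        ‖∑ y : B, (if y - r ∈ G then (starRingEnd ℂ) (η y) * b (a, y) else 0)‖ ^ 2 := by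
        rw [← Finset.mul_sum, ← mul_assoc, Fintype.card_prod]
        push_cast
        rfl

end Pool.Agent.H42.THC
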